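import Mathlib
import Pool.Agent.Run7.h605.Stmt
import Pool.Agent.Run7.h605.KappaOpen
import Pool.Agent.Run7.h605.Convert
import Pool.Agent.Run7.h605.Rec3

/-!
# Complexity of lower envelopes of bivariate functions

A nearly quadratic bound for the complexity of the minimization diagram of `n` continuous
bivariate functions, under the topological assumptions of the problem.
-/

set_option autoImplicit false

open Set Topology

namespace Pool.Agent.Results.MP_07d5fa_co.NearlyQuadratic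

open Run7.h605

/-- **Main theorem.** For all `s ≥ 1` and `t` there is a constant `C` such that the complexity of
the minimization diagram of every family of `n` functions as in the problem is at most
`C n² exp (C (log n) ^ (1 - 1 / (s + 6 t + 1)))`; if relatively open edges are counted and the
intersection curves without their singular points have at most `m` components, the bound has the
additional term `m n²`. -/
theorem result (s t : ℕ) (hs : 1 ≤ s) : ∃ C : ℝ, ∀ (n : ℕ) (f : Fin n → ℝ × ℝ → ℝ),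
    Family s t f →
      (∃ N : ℕ, kappa f = N ∧ (N : ℝ) ≤ C * (n : ℝ) ^ 2 *
        Real.exp (C * Real.log n ^ (1 - 1 / ((s : ℝ) + 6 * t + 1)))) ∧
      ∀ m : ℕ, (∀ i j, i ≠ j →
          (comps ({p | f i p = f j p} \ sing {p | f i p = f j p})).encard ≤ m) →
        ∃ N : ℕ, kappaOpen f = N ∧ (N : ℝ) ≤ C * (n : ℝ) ^ 2 *
          Real.exp (C * Real.log n ^ (1 - 1 / ((s : ℝ) + 6 * t + 1))) + m * (n : ℝ) ^ 2 := by
  obtain ⟨A, c, hA, hc, hmain⟩ := main_bound s (2 * t) hs
  have ht0 : (0 : ℝ) ≤ t := Nat.cast_nonneg t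
  have hexpo : (s : ℝ) + 3 * ((2 * t : ℕ) : ℝ) + 1 = (s : ℝ) + 6 * t + 1 := by
    push_cast
    ring
  rw [hexpo] at hmain
  refine ⟨1 + 5 * t + 19 * A + c, ?_⟩
  intro n f hf
  set C : ℝ := 1 + 5 * t + 19 * A + c with hC
  have hC0 : 0 ≤ C := by positivity
  set M := toSetup hf with hM
  have hMf : M.f = f := toSetup_f hf
  have hV := hmain M Finset.univ
  rw [Finset.card_univ, Fintype.card_fin] at hV
  set L : ℝ := Real.log n ^ (1 - 1 / ((s : ℝ) + 6 * t + 1)) with hL
  have hLn : 0 ≤ Real.log n := Real.log_natCast_nonneg n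
  have hL0 : 0 ≤ L := Real.rpow_nonneg hLn _
  have hexp1 : 1 ≤ Real.exp (C * L) := by
    rw [← Real.exp_zero]
    exact Real.exp_le_exp.2 (by positivity)
  have hexp2 : Real.exp (c * L) ≤ Real.exp (C * L) := by
    apply Real.exp_le_exp.2
    apply mul_le_mul_of_nonneg_right ?_ hL0
    rw [hC]
    nlinarith
  have hn2 : (n : ℝ) ≤ (n : ℝ) ^ 2 := by
    rcases Nat.eq_zero_or_pos n with h0 | h0
    · rw [h0]; simp
    · have : (1 : ℝ) ≤ n := by exact_mod_cast h0
      nlinarith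
  have hVV : (Setup.VV M : ℝ) ≤ A * (n : ℝ) ^ 2 * Real.exp (C * L) :=
    hV.trans (mul_le_mul_of_nonneg_left hexp2 (by positivity))
  have hbase : ((n : ℝ) + 5 * t * (n : ℝ) ^ 2) + 19 * (Setup.VV M : ℝ) ≤
      C * (n : ℝ) ^ 2 * Real.exp (C * L) := by
    have h1 : (n : ℝ) + 5 * t * (n : ℝ) ^ 2 ≤ (1 + 5 * t) * (n : ℝ) ^ 2 * Real.exp (C * L) := by
      calc (n : ℝ) + 5 * t * (n : ℝ) ^ 2 ≤ (1 + 5 * t) * (n : ℝ) ^ 2 := by nlinarith
        _ = (1 + 5 * t) * (n : ℝ) ^ 2 * 1 := by ring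
        _ ≤ _ := mul_le_mul_of_nonneg_left hexp1 (by positivity)
    have h2 : 0 ≤ c * (n : ℝ) ^ 2 * Real.exp (C * L) := by positivity
    calc _ ≤ (1 + 5 * t) * (n : ℝ) ^ 2 * Real.exp (C * L) +
          19 * (A * (n : ℝ) ^ 2 * Real.exp (C * L)) + c * (n : ℝ) ^ 2 * Real.exp (C * L) := by
            linarith
      _ = C * (n : ℝ) ^ 2 * Real.exp (C * L) := by
            rw [hC]
            ring
  have htn : 0 ≤ (t : ℝ) * (n : ℝ) ^ 2 := by positivity
  constructor
  · have h1 := Setup.kappa_le (M := M)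
    rw [hMf] at h1
    obtain ⟨N, hN⟩ := ENat.ne_top_iff_exists.1 (ne_top_of_le_ne_top (ENat.natCast_ne_top _) h1)
    refine ⟨N, hN.symm, ?_⟩
    rw [← hN] at h1
    have h2 : N ≤ n + 2 * (2 * t * n ^ 2 + 9 * Setup.VV M) + Setup.VV M := by exact_mod_cast h1
    have h3 : (N : ℝ) ≤ n + 2 * (2 * t * (n : ℝ) ^ 2 + 9 * Setup.VV M) + Setup.VV M := by
      exact_mod_cast h2
    linarith
  · intro m hm
    have h1 := Setup.kappaOpen_le (M := M) (m := m + t) (fun i j h => toSetup_arcs hf hm h)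
    rw [hMf] at h1
    obtain ⟨N, hN⟩ := ENat.ne_top_iff_exists.1 (ne_top_of_le_ne_top (ENat.natCast_ne_top _) h1)
    refine ⟨N, hN.symm, ?_⟩
    rw [← hN] at h1
    have h2 : N ≤ n + (2 * t * n ^ 2 + 9 * Setup.VV M) +
        ((2 * t + (m + t)) * n ^ 2 + 9 * Setup.VV M) + Setup.VV M := by exact_mod_cast h1
    have h3 : (N : ℝ) ≤ n + (2 * t * (n : ℝ) ^ 2 + 9 * Setup.VV M) +
        ((2 * t + (m + t)) * (n : ℝ) ^ 2 + 9 * Setup.VV M) + Setup.VV M := by exact_mod_cast h2
    nlinarith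

end Pool.Agent.Results.MP_07d5fa_co.NearlyQuadratic
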